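import Pool.Agent.W500.CS.Stm2

/-!
Local data in the uniformising disc (project CQ, part PULL).
-/

set_option autoImplicit false

open MeasureTheory Polynomial Metric Set Filter Topology
open scoped ComplexConjugate

namespace Pool.Agent.W74.CQ.Pull

open Pool.Agent.H586R3.CT
open Pool.Agent.W500.CS

lemma gr_add (a b : ℂ) : gr (a + b) = gr a + gr b := by
  ext v
  rw [gr_apply]
  change _ = gr a v + gr b v
  rw [gr_apply, gr_apply, add_mul, Complex.add_re]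

lemma gr_smul (c : ℝ) (a : ℂ) : gr ((c : ℂ) * a) = c • gr a := by
  ext v
  rw [gr_apply]
  change _ = c * gr a v
  rw [gr_apply, mul_assoc, Complex.re_ofReal_mul]

lemma gr_comp (w c : ℂ) : (gr w).comp (c • (1 : ℂ →L[ℝ] ℂ)) = gr (c * w) := by
  ext v
  rw [gr_apply]
  change gr w (c * v) = _
  rw [gr_apply]
  congr 1
  ring

lemma log_norm_deriv (s : ℂ) (hs : s ≠ 0) :
    HasFDerivAt (fun s : ℂ => Real.log ‖s‖) (gr s⁻¹) s := by
  have hn : ‖s‖ ^ 2 ≠ 0 := pow_ne_zero 2 (norm_ne_zero_iff.2 hs)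
  have h1 : HasFDerivAt (fun x : ℂ => ‖x‖ ^ 2) (2 • (innerSL ℝ s)) s :=
    (hasStrictFDerivAt_norm_sq s).hasFDerivAt
  have h2 := (h1.log hn).const_mul (1 / 2 : ℝ)
  have e1 : (fun x : ℂ => 1 / 2 * Real.log (‖x‖ ^ 2)) = fun s : ℂ => Real.log ‖s‖ := by
    funext x
    rw [Real.log_pow]
    push_cast
    ring
  have e2 : ((1 / 2 : ℝ) • ((‖s‖ ^ 2)⁻¹ • (2 • (innerSL ℝ s)))) = gr s⁻¹ := by
    ext v
    rw [gr_apply, Complex.inv_def]
    change (1 / 2 : ℝ) * ((‖s‖ ^ 2)⁻¹ * (2 • (inner ℝ s v))) = _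
    rw [Complex.inner, Complex.normSq_eq_norm_sq, two_nsmul, mul_comm (conj s) (_ : ℂ), mul_assoc,
      Complex.re_ofReal_mul]
    ring_nf
  rw [e1, e2] at h2
  exact h2

theorem main : S_PUIS → S_POT → S_SCOMP → S_AEP → S_PULL := by
  intro hpuis hpot hscomp haep μ _ hμ P hP h z₀
  obtain ⟨Q, hQ0, ⟨R, hR, U1, V1, hUV⟩, t, ht, hPQ⟩ := exists_sep P hP
  have hQ : ∀ᵐ z : ℂ, Q.evalEval z (CT μ z) = 0 := by
    have h1 : volume {z : ℂ | t.eval z = 0} = 0 := (finite_zeros ht).measure_zero _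
    filter_upwards [h, compl_mem_ae_iff.2 h1] with z hz1 hz2 using hPQ z _ hz1 hz2
  obtain ⟨N, K0, ρ, b, hN, hρ, hb, hbne, hb0⟩ := hpuis Q R U1 V1 hUV hR z₀
  set Ω : Set ℂ := {z | R.eval z ≠ 0 ∧ Q.leadingCoeff.eval z ≠ 0} with hΩ
  have hΩo : IsOpen Ω := by
    have c1 : IsOpen {z : ℂ | R.eval z ≠ 0} := isOpen_ne_fun R.continuous continuous_const
    have c2 : IsOpen {z : ℂ | Q.leadingCoeff.eval z ≠ 0} :=
      isOpen_ne_fun Q.leadingCoeff.continuous continuous_const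
    exact c1.inter c2
  obtain ⟨u, hu, hud⟩ := hpot μ hμ Ω hΩo (by
    intro z hz
    obtain ⟨r, hr, A, hA, hne, hval⟩ := exists_branches Q hUV hz.1 hz.2
    refine ⟨r, hr, Q.natDegree, A, hA, hne, ?_⟩
    filter_upwards [hQ] with w hw hwb
    exact hval w hwb _ hw)
  set m : ℝ := μ.real {z₀} with hm
  set W : Set ℂ := ball 0 ρ \ {0} with hW
  have hWo : IsOpen W := isOpen_ball.sdiff isClosed_singleton
  set H : ℂ → ℝ := fun s => -(N * m) * Real.log ‖s‖ with hH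
  set g : ℂ → ℂ := fun s => z₀ + s ^ N with hg
  have hs0 : ∀ s ∈ W, s ≠ 0 := fun s hs h0 => hs.2 h0
  have hgd : ∀ s, HasDerivAt g ((N : ℂ) * s ^ (N - 1)) s := fun s =>
    (hasDerivAt_pow N s).const_add z₀
  have hgW : MapsTo g W Ω := fun s hs => ⟨(hb0 s hs).1, (hb0 s hs).2.1⟩
  have hHs : ContDiffOn ℝ 2 H W := by
    intro s hs
    have h1 : ContDiffAt ℝ 2 (fun s : ℂ => ‖s‖) s := contDiffAt_norm ℝ (hs0 s hs)
    have h2 : ContDiffAt ℝ 2 (fun s : ℂ => Real.log ‖s‖) s :=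
      h1.log (norm_ne_zero_iff.2 (hs0 s hs))
    exact (contDiffAt_const.mul h2).contDiffWithinAt
  set U : ℂ → ℝ := fun s => u (g s) + H s with hU
  have hSC : SCon W U := hscomp Ω W u H g hWo hu
    (fun s _ => (hgd s).differentiableAt.differentiableWithinAt) hgW hHs
  have hp := haep (fun z => (z ∈ Ω → HasFDerivAt u (gr (CT μ z)) z) ∧
    Q.evalEval z (CT μ z) = 0) z₀ N hN (by
      filter_upwards [hud, hQ] with z h1 h2 using ⟨h1, h2⟩)
  have hder : ∀ᵐ s : ℂ, s ∈ W → (HasFDerivAt U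
        (gr ((N : ℂ) * s ^ (N - 1) * (CT μ (z₀ + s ^ N) - (m : ℂ) * (s ^ N)⁻¹))) s) ∧
        Q.evalEval (z₀ + s ^ N) (CT μ (z₀ + s ^ N)) = 0 := by
    filter_upwards [hp] with s hs hsW
    refine ⟨?_, hs.2⟩
    have h1 := hs.1 (hgW hsW)
    have h2 : HasFDerivAt g (((N : ℂ) * s ^ (N - 1)) • (1 : ℂ →L[ℝ] ℂ)) s :=
      (hgd s).complexToReal_fderiv
    have h3 : HasFDerivAt (fun s => u (g s))
        ((gr (CT μ (z₀ + s ^ N))).comp (((N : ℂ) * s ^ (N - 1)) • (1 : ℂ →L[ℝ] ℂ))) s :=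
      HasFDerivAt.comp s h1 h2
    have h4 := (log_norm_deriv s (hs0 s hsW)).const_mul (-(N * m))
    have h5 := h3.add h4
    have e : (gr (CT μ (z₀ + s ^ N))).comp (((N : ℂ) * s ^ (N - 1)) • (1 : ℂ →L[ℝ] ℂ)) +
        (-(N * m)) • gr s⁻¹ =
        gr ((N : ℂ) * s ^ (N - 1) * (CT μ (z₀ + s ^ N) - (m : ℂ) * (s ^ N)⁻¹)) := by
      rw [gr_comp, ← gr_smul, ← gr_add]
      congr 1
      have hsn := hs0 s hsW
      obtain ⟨n, rfl⟩ : ∃ n, N = n + 1 := ⟨N - 1, by omega⟩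
      simp only [Nat.add_sub_cancel]
      push_cast
      field_simp
      ring
    rw [e] at h5
    exact h5
  refine ⟨N, K0 + 1, Q.natDegree, ρ,
    fun i s => (N : ℂ) * s ^ N * b i s - (N : ℂ) * m * s ^ K0, U, hN, hρ, ?_, ?_, ?_⟩
  · intro i
    exact ((differentiableOn_const _).mul (differentiableOn_id.pow N)).mul (hb i) |>.sub
      ((differentiableOn_const _).mul (differentiableOn_id.pow K0))
  · refine ⟨hWo, hSC, ?_, ?_, ?_⟩
    · intro i
      refine DifferentiableOn.div ?_ (differentiableOn_id.pow (K0 + 1)) ?_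
      · refine DifferentiableOn.mono ?_ sdiff_subset
        exact ((differentiableOn_const _).mul (differentiableOn_id.pow N)).mul (hb i) |>.sub
          ((differentiableOn_const _).mul (differentiableOn_id.pow K0))
      · intro s hs
        exact pow_ne_zero _ (hs0 s hs)
    · intro i j hij s hs he
      have hsn := hs0 s hs
      have hNn : (N : ℂ) ≠ 0 := by exact_mod_cast hN.ne'
      have h1 := (div_left_inj' (pow_ne_zero (K0 + 1) hsn)).1 he
      have h2 : (N : ℂ) * s ^ N * b i s = (N : ℂ) * s ^ N * b j s := by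
        linear_combination h1
      exact hbne i j hij s hs (mul_left_cancel₀ (mul_ne_zero hNn (pow_ne_zero N hsn)) h2)
    · filter_upwards [hder] with s hs hsW
      obtain ⟨h1, h2⟩ := hs hsW
      obtain ⟨i, hi⟩ := ((hb0 s hsW).2.2 _).1 h2
      refine ⟨i, ?_⟩
      have hsn := hs0 s hsW
      have e : ((N : ℂ) * s ^ N * b i s - (N : ℂ) * m * s ^ K0) / s ^ (K0 + 1) =
          (N : ℂ) * s ^ (N - 1) * (CT μ (z₀ + s ^ N) - (m : ℂ) * (s ^ N)⁻¹) := by
        rw [← hi]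
        obtain ⟨n, rfl⟩ : ∃ n, N = n + 1 := ⟨N - 1, by omega⟩
        simp only [Nat.add_sub_cancel]
        field_simp
        ring
      rw [e]
      exact h1
  · filter_upwards [hder] with s hs hsW
    exact (hs hsW).1

end Pool.Agent.W74.CQ.Pull
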